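import Mathlib

namespace Pool.Agent.Results.MP_6800d9_co.Cover

/-- The closed axis-parallel rectangle `[0,a] × [0,b]` translated by `v`. -/
def rect (a b : ℝ) (v : ℝ × ℝ) : Set (ℝ × ℝ) :=
  (fun p => p + v) '' (Set.Icc 0 a ×ˢ Set.Icc 0 b)

theorem mem_rect {a b : ℝ} {v p : ℝ × ℝ} :
    p ∈ rect a b v ↔ (v.1 ≤ p.1 ∧ p.1 ≤ v.1 + a) ∧ (v.2 ≤ p.2 ∧ p.2 ≤ v.2 + b) := by
  constructor
  · rintro ⟨q, ⟨⟨h1, h2⟩, h3, h4⟩, rfl⟩
    simp only [Prod.fst_add, Prod.snd_add]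
    refine ⟨⟨?_, ?_⟩, ?_, ?_⟩ <;> linarith
  · rintro ⟨⟨h1, h2⟩, h3, h4⟩
    refine ⟨p - v, ⟨⟨?_, ?_⟩, ?_, ?_⟩, by simp⟩ <;> simp only [Prod.fst_sub, Prod.snd_sub] <;> linarith

theorem shelf {ι : Type} (a b : ι → ℝ) (ha : ∀ i, a i ≤ 1) (hb : ∀ i, 0 ≤ b i) (S : Finset ι) :
    ∀ x y M : ℝ, x ≤ 1 → 0 ≤ M → y < 1 → (∀ i ∈ S, b i ≤ M) →
      (1 - x) * M + 2 * (1 - y) ≤ ∑ i ∈ S, a i * b i →
      ∃ v : ι → ℝ × ℝ, ∀ p : ℝ × ℝ, 0 ≤ p.1 → p.1 ≤ 1 → y ≤ p.2 → p.2 ≤ 1 →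
        (p.1 < x ∧ p.2 ≤ y + M) ∨ ∃ i ∈ S, p ∈ rect (a i) (b i) (v i) := by
  classical
  induction S using Finset.induction_on_max_value b with
  | empty =>
    intro x y M hx hM hy _ hs
    rw [Finset.sum_empty] at hs
    nlinarith [mul_nonneg (sub_nonneg.2 hx) hM]
  | insert j S hj hmax ih =>
    intro x y M hx hM hy hS hs
    rw [Finset.sum_insert hj] at hs
    have hjM := hS j (Finset.mem_insert_self _ _)
    have hbj := hb j
    have haj := ha j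
    have up : ∀ (v : ι → ℝ × ℝ) (p : ℝ × ℝ), (∃ i ∈ S, p ∈ rect (a i) (b i) (v i)) →
        ∃ i ∈ insert j S, p ∈ rect (a i) (b i) (Function.update v j (x, y) i) := by
      rintro v p ⟨i, hi, hp⟩
      refine ⟨i, Finset.mem_insert_of_mem hi, ?_⟩
      rwa [Function.update_of_ne (ne_of_mem_of_not_mem hi hj)]
    have new : ∀ (v : ι → ℝ × ℝ) (p : ℝ × ℝ), p.1 ≤ x + a j → y ≤ p.2 → p.2 ≤ y + b j →
        (p.1 < x ∧ p.2 ≤ y + M) ∨
          ∃ i ∈ insert j S, p ∈ rect (a i) (b i) (Function.update v j (x, y) i) := by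
      intro v p h1 h2 h3
      rcases lt_or_ge p.1 x with h | h
      · exact Or.inl ⟨h, by linarith⟩
      · refine Or.inr ⟨j, Finset.mem_insert_self _ _, ?_⟩
        rw [Function.update_self, mem_rect]
        exact ⟨⟨h, h1⟩, h2, h3⟩
    rcases lt_or_ge (x + a j) 1 with h | h
    · obtain ⟨v, hv⟩ := ih (x + a j) y (b j) h.le hbj hy hmax
        (by nlinarith [mul_le_mul_of_nonneg_left hjM (sub_nonneg.2 hx)])
      refine ⟨Function.update v j (x, y), fun p h1 h2 h3 h4 => ?_⟩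
      rcases hv p h1 h2 h3 h4 with ⟨k1, k2⟩ | k
      · exact new v p k1.le h3 k2
      · exact Or.inr (up v p k)
    · rcases lt_or_ge (y + b j) 1 with h' | h'
      · obtain ⟨v, hv⟩ := ih 0 (y + b j) (b j) zero_le_one hbj h' hmax
          (by nlinarith [mul_nonneg (sub_nonneg.2 hx) hM, mul_le_mul_of_nonneg_right haj hbj])
        refine ⟨Function.update v j (x, y), fun p h1 h2 h3 h4 => ?_⟩
        rcases le_total p.2 (y + b j) with k | k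
        · exact new v p (by linarith) h3 k
        · rcases hv p h1 h2 k h4 with ⟨k1, -⟩ | k1
          · linarith
          · exact Or.inr (up v p k1)
      · exact ⟨Function.update (fun _ => 0) j (x, y), fun p h1 h2 h3 h4 =>
          new _ p (by linarith) h3 (by linarith)⟩

theorem wide {ι : Type} (a b : ι → ℝ) (ha : ∀ i, 0 < a i ∧ a i ≤ 1) (hb : ∀ i, 0 < b i ∧ b i ≤ 1)
    (j : ι) (hj : a j = 1) (hs : HasSum (fun i => a i * b i) 3) :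
    ∃ v : ι → ℝ × ℝ, ∀ p : ℝ × ℝ, 0 ≤ p.1 → p.1 ≤ 1 → 0 ≤ p.2 → p.2 ≤ 1 →
      ∃ i, p ∈ rect (a i) (b i) (v i) := by
  classical
  have hbj := hb j
  have base : ∀ (v : ι → ℝ × ℝ) (p : ℝ × ℝ), 0 ≤ p.1 → p.1 ≤ 1 → 0 ≤ p.2 → p.2 ≤ b j →
      ∃ i, p ∈ rect (a i) (b i) (Function.update v j (0, 0) i) := by
    intro v p h1 h2 h3 h4
    refine ⟨j, ?_⟩
    rw [Function.update_self, mem_rect, hj]
    exact ⟨⟨h1, by linarith⟩, h3, by linarith⟩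
  rcases hbj.2.lt_or_eq with h | h
  · obtain ⟨S, hS⟩ := ((tendsto_order.1 hs).1 (3 - b j) (by linarith)).exists
    have h1 : ∑ i ∈ S, a i * b i ≤ ∑ i ∈ S.erase j, a i * b i + b j := by
      by_cases hm : j ∈ S
      · rw [← Finset.sum_erase_add _ _ hm, hj, one_mul]
      · rw [Finset.erase_eq_of_notMem hm]; linarith
    obtain ⟨v, hv⟩ := shelf a b (fun i => (ha i).2) (fun i => (hb i).1.le) (S.erase j) 0 (b j) 1
      zero_le_one zero_le_one h (fun i _ => (hb i).2) (by linarith)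
    refine ⟨Function.update v j (0, 0), fun p h1 h2 h3 h4 => ?_⟩
    rcases le_total p.2 (b j) with k | k
    · exact base v p h1 h2 h3 k
    · rcases hv p h1 h2 k h4 with ⟨k1, -⟩ | ⟨i, hi, hp⟩
      · linarith
      · refine ⟨i, ?_⟩
        rwa [Function.update_of_ne (Finset.ne_of_mem_erase hi)]
  · exact ⟨Function.update (fun _ => 0) j (0, 0), fun p h1 h2 h3 h4 =>
      base _ p h1 h2 h3 (by linarith)⟩

theorem result (ι : Type) [Countable ι] (a b : ι → ℝ)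
    (ha : ∀ i, 0 < a i ∧ a i ≤ 1) (hb : ∀ i, 0 < b i ∧ b i ≤ 1) (h1 : ∃ i, a i = 1 ∨ b i = 1)
    (hs : HasSum (fun i => a i * b i) 3) :
    ∃ v : ι → ℝ × ℝ, Set.Icc (0 : ℝ) 1 ×ˢ Set.Icc (0 : ℝ) 1 ⊆ ⋃ i, rect (a i) (b i) (v i) := by
  obtain ⟨j, hj | hj⟩ := h1
  · obtain ⟨v, hv⟩ := wide a b ha hb j hj hs
    exact ⟨v, fun p hp => Set.mem_iUnion.2 (hv p hp.1.1 hp.1.2 hp.2.1 hp.2.2)⟩
  · obtain ⟨v, hv⟩ := wide b a hb ha j hj (by simpa only [mul_comm] using hs)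
    refine ⟨fun i => (v i).swap, fun p hp => Set.mem_iUnion.2 ?_⟩
    obtain ⟨i, hi⟩ := hv p.swap hp.2.1 hp.2.2 hp.1.1 hp.1.2
    rw [mem_rect] at hi
    exact ⟨i, mem_rect.2 ⟨hi.2, hi.1⟩⟩

end Pool.Agent.Results.MP_6800d9_co.Cover
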